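import Mathlib

/-!
# MP_2c723a: irreducible modules of the tridiagonal algebra with unequal eigenspaces

For every field `K` that contains a primitive cube root of unity, the tridiagonal algebra
`T(-1, 0, 0, 0, 0)` has a three-dimensional irreducible module on which `A` and `A*` are
diagonalizable, do not form a tridiagonal pair, all eigenspaces of `A` have dimension one, and
`A*` has an eigenspace of dimension one and an eigenspace of dimension two.
-/

namespace Pool.Agent.Results.MP_2c723a_al.UnequalEigenspaces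

open Module

/-- The expression `A^2 B - β A B A + B A^2 - γ (A B + B A) - ϱ B` in a `K`-algebra. -/
def cubicTerm {K R : Type*} [Field K] [Ring R] [Algebra K R] (β γ ϱ : K) (A B : R) : R :=
  A ^ 2 * B - β • (A * B * A) + B * A ^ 2 - γ • (A * B + B * A) - ϱ • B

/-- The defining relations of the tridiagonal algebra, in the free algebra on two generators
(`ι true` stands for `A`, `ι false` for `A*`):
`[A, A^2 A* - β A A* A + A* A^2 - γ (A A* + A* A) - ϱ A*] = 0` and
`[A*, A*^2 A - β A* A A* + A A*^2 - γ* (A* A + A A*) - ϱ* A] = 0`. -/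
inductive TDRel {K : Type*} [Field K] (β γ γs ϱ ϱs : K) :
    FreeAlgebra K Bool → FreeAlgebra K Bool → Prop
  | first : TDRel β γ γs ϱ ϱs
      ⁅FreeAlgebra.ι K true, cubicTerm β γ ϱ (FreeAlgebra.ι K true) (FreeAlgebra.ι K false)⁆ 0
  | second : TDRel β γ γs ϱ ϱs
      ⁅FreeAlgebra.ι K false, cubicTerm β γs ϱs (FreeAlgebra.ι K false) (FreeAlgebra.ι K true)⁆ 0

/-- The tridiagonal algebra `T(β, γ, γ*, ϱ, ϱ*)` over the field `K`. -/
abbrev TDAlgebra {K : Type*} [Field K] (β γ γs ϱ ϱs : K) : Type _ :=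
  RingQuot (TDRel β γ γs ϱ ϱs)

/-- The generator `A` of the tridiagonal algebra. -/
noncomputable def genA {K : Type*} [Field K] (β γ γs ϱ ϱs : K) : TDAlgebra β γ γs ϱ ϱs :=
  RingQuot.mkAlgHom K (TDRel β γ γs ϱ ϱs) (FreeAlgebra.ι K true)

/-- The generator `A*` of the tridiagonal algebra. -/
noncomputable def genAs {K : Type*} [Field K] (β γ γs ϱ ϱs : K) : TDAlgebra β γ γs ϱ ϱs :=
  RingQuot.mkAlgHom K (TDRel β γ γs ϱ ϱs) (FreeAlgebra.ι K false)

/-- A linear map is diagonalizable: the space is spanned by its eigenspaces. -/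
def Diagonalizable {K V : Type*} [Field K] [AddCommGroup V] [Module K V] (f : End K V) : Prop :=
  ⨆ μ : K, f.eigenspace μ = ⊤

/-- The eigenspaces of `f` can be ordered as `V_0, ..., V_d` (all eigenvalues, listed without
repetition) such that `g V_i ⊆ V_{i-1} + V_i + V_{i+1}`. -/
def ActsTridiagonally {K V : Type*} [Field K] [AddCommGroup V] [Module K V]
    (f g : End K V) : Prop :=
  ∃ (d : ℕ) (θ : Fin (d + 1) → K), Function.Injective θ ∧
    (∀ μ : K, f.HasEigenvalue μ ↔ ∃ i, θ i = μ) ∧
    ∀ i : Fin (d + 1), ∀ v ∈ f.eigenspace (θ i),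
      g v ∈ ⨆ j : {j : Fin (d + 1) // (j : ℕ) ≤ i + 1 ∧ (i : ℕ) ≤ j + 1}, f.eigenspace (θ j)

/-- The only subspaces invariant under both `f` and `g` are `0` and `V`. -/
def NoCommonInvariant {K V : Type*} [Field K] [AddCommGroup V] [Module K V]
    (f g : End K V) : Prop :=
  ∀ W : Submodule K V, (∀ w ∈ W, f w ∈ W) → (∀ w ∈ W, g w ∈ W) → W = ⊥ ∨ W = ⊤

/-- `f, g` is a tridiagonal pair on the nonzero finite-dimensional space `V`. -/
def IsTridiagonalPair {K V : Type*} [Field K] [AddCommGroup V] [Module K V]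
    (f g : End K V) : Prop :=
  FiniteDimensional K V ∧ Nontrivial V ∧ Diagonalizable f ∧ Diagonalizable g ∧
    ActsTridiagonally f g ∧ ActsTridiagonally g f ∧ NoCommonInvariant f g

/-- A representation `ρ` of the algebra `T` on `V` is irreducible: `V ≠ 0` and the only
submodules are `0` and `V`. -/
def Irreducible {K T V : Type*} [Field K] [Ring T] [Algebra K T] [AddCommGroup V] [Module K V]
    (ρ : T →ₐ[K] End K V) : Prop :=
  Nontrivial V ∧ ∀ W : Submodule K V, (∀ t : T, ∀ w ∈ W, ρ t w ∈ W) → W = ⊥ ∨ W = ⊤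

/-- `f` has an eigenspace (for some eigenvalue) of dimension `n`. -/
def HasEigenspaceOfDim {K V : Type*} [Field K] [AddCommGroup V] [Module K V]
    (f : End K V) (n : ℕ) : Prop :=
  ∃ μ : K, f.HasEigenvalue μ ∧ finrank K (f.eigenspace μ) = n

/-! ### The example -/

section Example

variable {K : Type*} [Field K]

/-- The operator `A`: the diagonal matrix with entries `1, w, w^2`. -/
def opA (w : K) : End K (Fin 3 → K) where
  toFun v i := w ^ (i : ℕ) * v i
  map_add' u v := by funext i; simp [mul_add]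
  map_smul' c v := by funext i; simp [mul_left_comm]

/-- The operator `A*`: identity plus `(w - 1) / 3` times the all-ones matrix. -/
def opB (w : K) : End K (Fin 3 → K) where
  toFun v i := v i + (w - 1) / 3 * (v 0 + v 1 + v 2)
  map_add' u v := by funext i; simp; ring
  map_smul' c v := by funext i; simp; ring

@[simp] lemma opA_apply (w : K) (v : Fin 3 → K) (i : Fin 3) : opA w v i = w ^ (i : ℕ) * v i := rfl

@[simp] lemma opB_apply (w : K) (v : Fin 3 → K) (i : Fin 3) :
    opB w v i = v i + (w - 1) / 3 * (v 0 + v 1 + v 2) := rfl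

variable {w : K}

lemma three_ne_zero' (hw : IsPrimitiveRoot w 3) : (3 : K) ≠ 0 := by
  have := hw.neZero'
  exact_mod_cast this.out

lemma quad (hw : IsPrimitiveRoot w 3) : w ^ 2 + w + 1 = 0 := by
  have h1 : w ≠ 1 := hw.ne_one (by norm_num)
  have h3 : w ^ 3 = 1 := hw.pow_eq_one
  have : (w - 1) * (w ^ 2 + w + 1) = 0 := by ring_nf; rw [h3]; ring
  rcases mul_eq_zero.1 this with h | h
  · exact absurd (sub_eq_zero.1 h) h1
  · exact h

lemma opA_cube (hw : IsPrimitiveRoot w 3) : opA w ^ 3 = 1 := by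
  have h3 : w ^ 3 = 1 := hw.pow_eq_one
  ext v i
  simp only [pow_succ, pow_zero, one_mul, End.mul_apply, LinearMap.coe_comp, Function.comp_apply,
    opA_apply, End.one_apply]
  fin_cases i
  · simp
  · simp only [Fin.mk_one, Fin.isValue, pow_one]
    linear_combination (LinearMap.single K (fun _ => K) v (1 : K) 1) * h3
  · simp only [Fin.reduceFinMk]
    linear_combination (w ^ 3 + 1) * (LinearMap.single K (fun _ => K) v (1 : K) 2) * h3

lemma opB_cube (hw : IsPrimitiveRoot w 3) : opB w ^ 3 = 1 := by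
  have h3 : w ^ 3 = 1 := hw.pow_eq_one
  have hne := three_ne_zero' hw
  refine LinearMap.ext fun v => ?_
  funext i
  simp only [pow_succ, pow_zero, one_mul, End.mul_apply, opB_apply, End.one_apply]
  field_simp
  linear_combination 9 * (v 0 + v 1 + v 2) * h3

/-- The algebra homomorphism from the free algebra. -/
noncomputable def freeRep (w : K) : FreeAlgebra K Bool →ₐ[K] End K (Fin 3 → K) :=
  FreeAlgebra.lift K (fun b => if b then opA w else opB w)

@[simp] lemma freeRep_true (w : K) : freeRep w (FreeAlgebra.ι K true) = opA w := by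
  simp [freeRep]

@[simp] lemma freeRep_false (w : K) : freeRep w (FreeAlgebra.ι K false) = opB w := by
  simp [freeRep]

lemma comm_key {R : Type*} [Ring R] (a b : R) (ha : a ^ 3 = 1) :
    ⁅a, a ^ 2 * b + a * b * a + b * a ^ 2⁆ = 0 := by
  have h : ⁅a, a ^ 2 * b + a * b * a + b * a ^ 2⁆ = a ^ 3 * b - b * a ^ 3 := by
    rw [Ring.lie_def]; noncomm_ring
  rw [h, ha]; simp

lemma freeRep_rel (hw : IsPrimitiveRoot w 3) ⦃x y : FreeAlgebra K Bool⦄
    (h : TDRel (-1 : K) 0 0 0 0 x y) : freeRep w x = freeRep w y := by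
  cases h with
  | first =>
    simp only [Ring.lie_def, cubicTerm, map_sub, map_mul, map_add, map_pow, freeRep_true,
      freeRep_false, map_zero, zero_smul, sub_zero, neg_smul, one_smul, sub_neg_eq_add]
    have := comm_key (opA w) (opB w) (opA_cube hw)
    rwa [Ring.lie_def] at this
  | second =>
    simp only [Ring.lie_def, cubicTerm, map_sub, map_mul, map_add, map_pow, freeRep_true,
      freeRep_false, map_zero, zero_smul, sub_zero, neg_smul, one_smul, sub_neg_eq_add]
    have := comm_key (opB w) (opA w) (opB_cube hw)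
    rwa [Ring.lie_def] at this

/-- The representation of `T(-1, 0, 0, 0, 0)`. -/
noncomputable def rep (hw : IsPrimitiveRoot w 3) :
    TDAlgebra (-1 : K) 0 0 0 0 →ₐ[K] End K (Fin 3 → K) :=
  RingQuot.liftAlgHom K ⟨freeRep w, freeRep_rel hw⟩

@[simp] lemma rep_genA (hw : IsPrimitiveRoot w 3) :
    rep hw (genA (-1 : K) 0 0 0 0) = opA w := by
  simp [rep, genA]

@[simp] lemma rep_genAs (hw : IsPrimitiveRoot w 3) :
    rep hw (genAs (-1 : K) 0 0 0 0) = opB w := by
  simp [rep, genAs]

lemma pow_inj_three (hw : IsPrimitiveRoot w 3) {i j : Fin 3}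
    (h : w ^ (i : ℕ) = w ^ (j : ℕ)) : i = j :=
  Fin.ext (hw.pow_inj i.2 j.2 h)

/-- An eigenvector of `opA` for `w ^ i` vanishes off `i`. -/
lemma eig_zero (hw : IsPrimitiveRoot w 3) {μ : K} {v : Fin 3 → K}
    (hv : v ∈ (opA w).eigenspace μ) {j : Fin 3} (hj : μ ≠ w ^ (j : ℕ)) : v j = 0 := by
  have h := congrFun (End.mem_eigenspace_iff.1 hv) j
  simp only [opA_apply, Pi.smul_apply, smul_eq_mul] at h
  have h2 : (w ^ (j : ℕ) - μ) * v j = 0 := by linear_combination h
  rcases mul_eq_zero.1 h2 with h3 | h3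
  · exact absurd (sub_eq_zero.1 h3).symm hj
  · exact h3

lemma single_mem (w : K) (i : Fin 3) :
    (Pi.single i 1 : Fin 3 → K) ∈ (opA w).eigenspace (w ^ (i : ℕ)) := by
  rw [End.mem_eigenspace_iff]
  funext j
  by_cases h : j = i
  · subst h; simp
  · simp [Pi.single_eq_of_ne h]

lemma opA_hasEig (w : K) (i : Fin 3) : (opA w).HasEigenvalue (w ^ (i : ℕ)) :=
  End.hasEigenvalue_of_hasEigenvector ⟨single_mem w i, by
    intro h; have := congrFun h i; simp at this⟩

lemma eig_of_hasEig {μ : K} (h : (opA w).HasEigenvalue μ) :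
    ∃ i : Fin 3, μ = w ^ (i : ℕ) := by
  obtain ⟨v, hv, hv0⟩ := h.exists_hasEigenvector
  by_contra hcon
  push Not at hcon
  apply hv0
  funext j
  have h := congrFun (End.mem_eigenspace_iff.1 hv) j
  simp only [opA_apply, Pi.smul_apply, smul_eq_mul] at h
  have h2 : (w ^ (j : ℕ) - μ) * v j = 0 := by linear_combination h
  rcases mul_eq_zero.1 h2 with h3 | h3
  · exact absurd (sub_eq_zero.1 h3).symm (hcon j)
  · exact h3

lemma eigenspace_eq_span (hw : IsPrimitiveRoot w 3) (i : Fin 3) :
    (opA w).eigenspace (w ^ (i : ℕ)) = K ∙ (Pi.single i 1 : Fin 3 → K) := by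
  apply le_antisymm
  · intro v hv
    rw [Submodule.mem_span_singleton]
    refine ⟨v i, ?_⟩
    funext j
    by_cases h : j = i
    · subst h; simp
    · rw [eig_zero hw hv (fun h' => h (pow_inj_three hw h').symm)]
      simp [Pi.single_eq_of_ne h]
  · rw [Submodule.span_singleton_le_iff_mem]
    exact single_mem w i

lemma finrank_eig (hw : IsPrimitiveRoot w 3) (i : Fin 3) :
    finrank K ((opA w).eigenspace (w ^ (i : ℕ))) = 1 := by
  rw [eigenspace_eq_span hw]
  exact finrank_span_singleton (by intro h; have := congrFun h i; simp at this)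

lemma opA_diag (w : K) : Diagonalizable (opA w) := by
  rw [Diagonalizable, eq_top_iff]
  intro v _
  have hv : v = ∑ i, v i • (Pi.single i 1 : Fin 3 → K) := by
    funext j
    simp [Finset.sum_apply, Pi.single_apply]
  rw [hv]
  refine Submodule.sum_mem _ fun i _ => Submodule.smul_mem _ _ ?_
  exact Submodule.mem_iSup_of_mem _ (single_mem w i)

/-- The all-ones vector. -/
def ones : Fin 3 → K := fun _ => 1

lemma ones_mem (hw : IsPrimitiveRoot w 3) : (ones : Fin 3 → K) ∈ (opB w).eigenspace w := by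
  rw [End.mem_eigenspace_iff]
  have h3 := three_ne_zero' hw
  funext j
  simp only [opB_apply, ones, Pi.smul_apply, smul_eq_mul]
  field_simp
  ring

lemma mem_eig_one (hw : IsPrimitiveRoot w 3) {v : Fin 3 → K} :
    v ∈ (opB w).eigenspace 1 ↔ v 0 + v 1 + v 2 = 0 := by
  rw [End.mem_eigenspace_iff]
  have h3 := three_ne_zero' hw
  have h1 : w - 1 ≠ 0 := sub_ne_zero.2 (hw.ne_one (by norm_num))
  constructor
  · intro h
    have h' := congrFun h 0
    simp only [opB_apply, one_smul] at h'
    have h'' : (w - 1) / 3 * (v 0 + v 1 + v 2) = 0 := by linear_combination h'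
    rcases mul_eq_zero.1 h'' with h4 | h4
    · exact absurd h4 (div_ne_zero h1 h3)
    · exact h4
  · intro h
    funext j
    simp [h]

lemma opB_diag (hw : IsPrimitiveRoot w 3) : Diagonalizable (opB w) := by
  rw [Diagonalizable, eq_top_iff]
  intro v _
  have h3 := three_ne_zero' hw
  have hv : v = (v - ((v 0 + v 1 + v 2) / 3) • ones) + ((v 0 + v 1 + v 2) / 3) • ones := by
    simp
  rw [hv]
  refine Submodule.add_mem _ ?_ (Submodule.smul_mem _ _ ?_)
  · refine Submodule.mem_iSup_of_mem 1 ((mem_eig_one hw).2 ?_)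
    simp only [Pi.sub_apply, Pi.smul_apply, ones, smul_eq_mul, mul_one]
    field_simp
    ring
  · exact Submodule.mem_iSup_of_mem w (ones_mem hw)

lemma eig_w_eq (hw : IsPrimitiveRoot w 3) :
    (opB w).eigenspace w = K ∙ (ones : Fin 3 → K) := by
  have h3 := three_ne_zero' hw
  have h1 : w - 1 ≠ 0 := sub_ne_zero.2 (hw.ne_one (by norm_num))
  apply le_antisymm
  · intro v hv
    rw [Submodule.mem_span_singleton]
    refine ⟨(v 0 + v 1 + v 2) / 3, ?_⟩
    funext j
    have h := congrFun (End.mem_eigenspace_iff.1 hv) j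
    simp only [opB_apply, Pi.smul_apply, smul_eq_mul] at h
    simp only [ones, Pi.smul_apply, smul_eq_mul, mul_one]
    have h' : (w - 1) * ((v 0 + v 1 + v 2) / 3 - v j) = 0 := by
      linear_combination h
    rcases mul_eq_zero.1 h' with h4 | h4
    · exact absurd h4 h1
    · exact sub_eq_zero.1 h4
  · rw [Submodule.span_singleton_le_iff_mem]
    exact ones_mem hw

lemma finrank_w (hw : IsPrimitiveRoot w 3) : finrank K ((opB w).eigenspace w) = 1 := by
  rw [eig_w_eq hw]
  exact finrank_span_singleton (by intro h; have := congrFun h 0; simp [ones] at this)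

/-- The sum functional. -/
def sumF : (Fin 3 → K) →ₗ[K] K where
  toFun v := v 0 + v 1 + v 2
  map_add' u v := by simp; ring
  map_smul' c v := by simp; ring

lemma eig_one_eq (hw : IsPrimitiveRoot w 3) :
    (opB w).eigenspace 1 = LinearMap.ker (sumF : (Fin 3 → K) →ₗ[K] K) := by
  ext v
  rw [mem_eig_one hw, LinearMap.mem_ker]
  rfl

lemma eigB_of_hasEig (hw : IsPrimitiveRoot w 3) {μ : K} (h : (opB w).HasEigenvalue μ) :
    μ = w ∨ μ = 1 := by
  have h3 := three_ne_zero' hw
  obtain ⟨v, hv, hv0⟩ := h.exists_hasEigenvector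
  have e : ∀ j, v j + (w - 1) / 3 * (v 0 + v 1 + v 2) = μ * v j := by
    intro j
    have h := congrFun (End.mem_eigenspace_iff.1 hv) j
    simpa only [opB_apply, Pi.smul_apply, smul_eq_mul] using h
  have hsum : (w - μ) * (v 0 + v 1 + v 2) = 0 := by
    have e0 := e 0
    have e1 := e 1
    have e2 := e 2
    have e3 : (3 : K) * ((w - 1) / 3) = w - 1 := by field_simp
    linear_combination e0 + e1 + e2 - (v 0 + v 1 + v 2) * e3
  rcases mul_eq_zero.1 hsum with h1 | h1
  · left; exact (sub_eq_zero.1 h1).symm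
  · right
    obtain ⟨j, hj⟩ : ∃ j, v j ≠ 0 := by
      by_contra hc
      push Not at hc
      exact hv0 (funext hc)
    have ej := e j
    rw [h1, mul_zero, add_zero] at ej
    have : (μ - 1) * v j = 0 := by linear_combination -ej
    rcases mul_eq_zero.1 this with h2 | h2
    · exact sub_eq_zero.1 h2
    · exact absurd h2 hj

lemma finrank_one (hw : IsPrimitiveRoot w 3) : finrank K ((opB w).eigenspace 1) = 2 := by
  have h := LinearMap.finrank_range_add_finrank_ker (sumF : (Fin 3 → K) →ₗ[K] K)
  have hs : LinearMap.range (sumF : (Fin 3 → K) →ₗ[K] K) = ⊤ := by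
    rw [LinearMap.range_eq_top]
    intro c
    refine ⟨Pi.single 0 c, ?_⟩
    simp [sumF]
  rw [hs, finrank_top] at h
  rw [eig_one_eq hw]
  simp at h
  omega

lemma opB_single_ne (hw : IsPrimitiveRoot w 3) {i j : Fin 3} (hij : i ≠ j) :
    opB w (Pi.single i 1) j ≠ 0 := by
  have h3 := three_ne_zero' hw
  have h1 : w - 1 ≠ 0 := sub_ne_zero.2 (hw.ne_one (by norm_num))
  have hs : (Pi.single i 1 : Fin 3 → K) 0 + (Pi.single i 1 : Fin 3 → K) 1
      + (Pi.single i 1 : Fin 3 → K) 2 = 1 := by
    fin_cases i <;> simp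
  rw [opB_apply, hs, Pi.single_eq_of_ne hij.symm, zero_add, mul_one]
  exact div_ne_zero h1 h3

lemma not_tri (hw : IsPrimitiveRoot w 3) : ¬ ActsTridiagonally (opA w) (opB w) := by
  rintro ⟨d, θ, hinj, hall, htri⟩
  have hex : ∀ i : Fin 3, ∃ a : Fin (d + 1), θ a = w ^ (i : ℕ) := fun i =>
    (hall _).1 (opA_hasEig w i)
  choose a ha using hex
  have hainj : Function.Injective a := by
    intro i j hij
    apply pow_inj_three hw
    rw [← ha i, ← ha j, hij]
  -- two of the three indices are at distance at least two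
  have hfar : ∃ i j : Fin 3, i ≠ j ∧ ((a i : ℕ) + 1 < a j) := by
    have h01 : a 0 ≠ a 1 := fun h => by simpa using hainj h
    have h02 : a 0 ≠ a 2 := fun h => by simpa using hainj h
    have h12 : a 1 ≠ a 2 := fun h => by simpa using hainj h
    have h01' : (a 0 : ℕ) ≠ a 1 := fun h => h01 (Fin.ext h)
    have h02' : (a 0 : ℕ) ≠ a 2 := fun h => h02 (Fin.ext h)
    have h12' : (a 1 : ℕ) ≠ a 2 := fun h => h12 (Fin.ext h)
    by_contra hcon
    push Not at hcon
    have e01 := hcon 0 1 (by decide)
    have e10 := hcon 1 0 (by decide)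
    have e02 := hcon 0 2 (by decide)
    have e20 := hcon 2 0 (by decide)
    have e12 := hcon 1 2 (by decide)
    have e21 := hcon 2 1 (by decide)
    omega
  obtain ⟨i, j, hij, hlt⟩ := hfar
  have hmem := htri (a i) (Pi.single i 1) (by rw [ha]; exact single_mem w i)
  have hle : (⨆ l : {l : Fin (d + 1) // (l : ℕ) ≤ a i + 1 ∧ ((a i : Fin (d + 1)) : ℕ) ≤ l + 1},
      (opA w).eigenspace (θ l)) ≤ LinearMap.ker (LinearMap.proj j : (Fin 3 → K) →ₗ[K] K) := by
    refine iSup_le fun l => ?_
    intro v hv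
    rw [LinearMap.mem_ker, LinearMap.proj_apply]
    apply eig_zero hw hv
    rw [← ha j]
    intro h
    have := congrArg Fin.val (hinj h)
    have := l.2.1
    omega
  exact opB_single_ne hw hij (LinearMap.mem_ker.1 (hle hmem))

lemma irred (hw : IsPrimitiveRoot w 3) (W : Submodule K (Fin 3 → K))
    (hA : ∀ v ∈ W, opA w v ∈ W) (hB : ∀ v ∈ W, opB w v ∈ W) : W = ⊥ ∨ W = ⊤ := by
  have h3 := three_ne_zero' hw
  have h1 : w - 1 ≠ 0 := sub_ne_zero.2 (hw.ne_one (by norm_num))
  have hq := quad hw
  have hw3 : w ^ 3 = 1 := hw.pow_eq_one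
  by_cases hbot : W = ⊥
  · exact Or.inl hbot
  right
  have hs : ∀ i j : Fin 3, 1 + w ^ (2 * (i : ℕ)) * w ^ (j : ℕ) +
      w ^ (i : ℕ) * (w ^ (j : ℕ) * w ^ (j : ℕ)) = if i = j then 3 else 0 := by
    intro i j
    fin_cases i <;> fin_cases j <;> simp
    · ring
    · linear_combination hq
    · linear_combination hq + w * hw3
    · linear_combination hq
    · linear_combination 2 * hw3
    · linear_combination hq + (w + w ^ 2) * hw3
    · linear_combination hq + w * hw3
    · linear_combination hq + (w + w ^ 2) * hw3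
    · linear_combination 2 * (w ^ 3 + 1) * hw3
  -- coordinate projections preserve `W`
  have hproj : ∀ v ∈ W, ∀ i : Fin 3, (Pi.single i (v i) : Fin 3 → K) ∈ W := by
    intro v hv i
    have e1 := hA v hv
    have e2 := hA _ e1
    have key : (Pi.single i (v i) : Fin 3 → K) =
        (1 / 3 : K) • (v + (w ^ (2 * (i : ℕ))) • opA w v + (w ^ (i : ℕ)) • opA w (opA w v)) := by
      funext j
      simp only [Pi.smul_apply, Pi.add_apply, opA_apply, smul_eq_mul]
      have h := hs i j
      by_cases hij : i = j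
      · subst hij
        rw [if_pos rfl] at h
        rw [Pi.single_eq_same]
        field_simp
        linear_combination (-(v i)) * h
      · rw [if_neg hij] at h
        rw [Pi.single_eq_of_ne (Ne.symm hij)]
        linear_combination (-(1 / 3) * v j) * h
    rw [key]
    exact W.smul_mem _ (W.add_mem (W.add_mem hv (W.smul_mem _ e1)) (W.smul_mem _ e2))
  obtain ⟨v, hv, hv0⟩ := (Submodule.ne_bot_iff W).1 hbot
  obtain ⟨i, hi⟩ : ∃ i, v i ≠ 0 := by
    by_contra h
    push Not at h
    exact hv0 (funext h)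
  have hsingle : ∀ u ∈ W, ∀ i : Fin 3, u i ≠ 0 → (Pi.single i 1 : Fin 3 → K) ∈ W := by
    intro u hu i hui
    have := W.smul_mem (u i)⁻¹ (hproj u hu i)
    rwa [← Pi.single_smul, smul_eq_mul, inv_mul_cancel₀ hui] at this
  have hei := hsingle v hv i hi
  have hall : ∀ j : Fin 3, (Pi.single j 1 : Fin 3 → K) ∈ W := by
    intro j
    by_cases hij : i = j
    · exact hij ▸ hei
    · exact hsingle _ (hB _ hei) j (opB_single_ne hw hij)
  rw [eq_top_iff]
  intro u _
  have hu : u = ∑ i, u i • (Pi.single i 1 : Fin 3 → K) := by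
    funext j
    simp [Finset.sum_apply, Pi.single_apply]
  rw [hu]
  exact Submodule.sum_mem _ fun i _ => W.smul_mem _ (hall i)

end Example

/-- **Disproof of Q1.** Over every field `K` containing a primitive cube root of unity there is a
finite-dimensional irreducible module of the tridiagonal algebra `T(-1, 0, 0, 0, 0)`, namely one on
`K^3`, on which `A` and `A*` act diagonalizably but not as a tridiagonal pair, such that every
eigenspace of `A` has dimension one while the dimensions of the eigenspaces of `A*` are one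
and two. -/
theorem result (K : Type*) [Field K] (w : K) (hw : IsPrimitiveRoot w 3) :
    ∃ ρ : TDAlgebra (-1 : K) 0 0 0 0 →ₐ[K] End K (Fin 3 → K), Irreducible ρ ∧
      ∃ A As : End K (Fin 3 → K),
        A = ρ (genA (-1) 0 0 0 0) ∧ As = ρ (genAs (-1) 0 0 0 0) ∧
        Diagonalizable A ∧ Diagonalizable As ∧ ¬ IsTridiagonalPair A As ∧
        (∀ n : ℕ, HasEigenspaceOfDim A n ↔ n = 1) ∧
        (∀ n : ℕ, HasEigenspaceOfDim As n ↔ n = 1 ∨ n = 2) := by
  refine ⟨rep hw, ⟨inferInstance, ?_⟩, opA w, opB w, (rep_genA hw).symm, (rep_genAs hw).symm,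
    opA_diag w, opB_diag hw, ?_, ?_, ?_⟩
  · intro W hW
    apply irred hw W
    · intro v hv
      have := hW (genA (-1 : K) 0 0 0 0) v hv
      rwa [rep_genA] at this
    · intro v hv
      have := hW (genAs (-1 : K) 0 0 0 0) v hv
      rwa [rep_genAs] at this
  · rintro ⟨-, -, -, -, h, -, -⟩
    exact not_tri hw h
  · intro n
    constructor
    · rintro ⟨μ, hμ, hn⟩
      obtain ⟨i, rfl⟩ := eig_of_hasEig hμ
      rw [← hn, finrank_eig hw i]
    · rintro rfl
      exact ⟨_, opA_hasEig w 0, finrank_eig hw 0⟩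
  · intro n
    constructor
    · rintro ⟨μ, hμ, hn⟩
      rcases eigB_of_hasEig hw hμ with rfl | rfl
      · left; rw [← hn, finrank_w hw]
      · right; rw [← hn, finrank_one hw]
    · rintro (rfl | rfl)
      · refine ⟨w, End.hasEigenvalue_of_hasEigenvector ⟨ones_mem hw, ?_⟩, finrank_w hw⟩
        intro h
        have := congrFun h 0
        simp [ones] at this
      · refine ⟨1, ?_, finrank_one hw⟩
        intro h
        have h2 := finrank_one hw
        change finrank K ((opB w).genEigenspace 1 1) = 2 at h2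
        rw [h] at h2
        simp at h2

end Pool.Agent.Results.MP_2c723a_al.UnequalEigenspaces
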